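import Pool.Agent.W354.HW.Euler
import Pool.Agent.W355.LJ.HeckeC
import Pool.Agent.W355.LJ.Heat

set_option autoImplicit false

/-!
# The odd cohomology of the powers of `y² = x³ - x`: completed L-function and criterion

The definitions `FE`, `mu`, `LL0`, `locE` and the Euler product are those of `Pool.Agent.W354.HW.Main`
(helper354), copied here to avoid its imports.
-/

open Complex Filter Topology Set

namespace Pool.Agent.W355.HW

open Pool.Agent.H304R3.HK (tc bb CS one_le_norm_tc)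
open Pool.Agent.W354.PK (HCk LK bK psik goodK)
open Pool.Agent.W354.HW (chiE qE chiE_pow_HC chiE_apply gE euler_k)
open Pool.Agent.H304R2.EC (aE)
open Pool.Agent.W355.LJ
open scoped ComplexConjugate

/-- `L(s, ψ^k)` -/
noncomputable def FE (k : ℕ) : ℂ → ℂ := LK k (chiE ^ k)

/-- the multiplicities `C(g, m-l) C(g, m+1+l)` -/
def mu (g m l : ℕ) : ℕ := g.choose (m - l) * g.choose (m + 1 + l)

/-- the L-function of `H^i(E^g)`, `i = 2m+1`, shifted to the critical line `Re s = 1/2` -/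
noncomputable def LL0 (g m : ℕ) (s : ℂ) : ℂ :=
  ∏ l ∈ Finset.range (m + 1), FE (2 * l + 1) s ^ mu g m l

theorem odd_l (l : ℕ) : Odd (2 * l + 1) := ⟨l, rfl⟩

theorem FE_diff (l : ℕ) : Differentiable ℂ (FE (2 * l + 1)) := by
  obtain ⟨A, hA, hgood⟩ := goodK
  exact (hgood (2 * l + 1) qE _ (by omega) (chiE_pow_HC (odd_l l))).1

theorem LL0_diff (g m : ℕ) : Differentiable ℂ (LL0 g m) := by
  unfold LL0
  refine Differentiable.fun_finsetProd fun l _ => ?_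
  exact (FE_diff l).pow _

/-- the local factor -/
noncomputable def locE (g i : ℕ) (α β : ℂ) (p : ℕ) (s : ℂ) : ℂ :=
  ∏ a ∈ Finset.range (i + 1),
    (1 - α ^ a * β ^ (i - a) * (p : ℂ) ^ (-s)) ^ (g.choose a * g.choose (i - a))

theorem locE_eq (g m : ℕ) (α β : ℂ) (p : ℕ) (hp : p ≠ 0) (hαβ : α * β = p) (s : ℂ) :
    (locE g (2 * m + 1) α β p s)⁻¹ = ∏ l ∈ Finset.range (m + 1),
      (((1 - α ^ (2 * l + 1) * (p : ℂ) ^ (-(s - ((2 * m + 1 : ℕ) : ℂ) / 2 +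
          ((2 * l + 1 : ℕ) : ℂ) / 2))) *
        (1 - β ^ (2 * l + 1) * (p : ℂ) ^ (-(s - ((2 * m + 1 : ℕ) : ℂ) / 2 +
          ((2 * l + 1 : ℕ) : ℂ) / 2))))⁻¹) ^ mu g m l := by
  have hp0 : (p : ℂ) ≠ 0 := Nat.cast_ne_zero.mpr hp
  unfold locE
  have e0 : 2 * m + 1 + 1 = (m + 1) + (m + 1) := by ring
  rw [e0, Finset.prod_range_add, ← Finset.prod_range_reflect _ (m + 1), ← Finset.prod_mul_distrib,
    ← Finset.prod_inv_distrib]
  refine Finset.prod_congr rfl fun l hl => ?_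
  have hl' : l ≤ m := by have := Finset.mem_range.mp hl; omega
  have e1 : m + 1 - 1 - l = m - l := by omega
  have e2 : 2 * m + 1 - (m - l) = m + 1 + l := by omega
  have e3 : 2 * m + 1 - (m + 1 + l) = m - l := by omega
  rw [e1, e2, e3]
  have e4 : g.choose (m + 1 + l) * g.choose (m - l) = mu g m l := by
    unfold mu; ring
  have e5 : g.choose (m - l) * g.choose (m + 1 + l) = mu g m l := rfl
  rw [e4, e5, ← mul_pow, inv_pow]
  congr 2
  have hX : (p : ℂ) ^ (-(s - ((2 * m + 1 : ℕ) : ℂ) / 2 + ((2 * l + 1 : ℕ) : ℂ) / 2)) =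
      (α * β) ^ (m - l) * (p : ℂ) ^ (-s) := by
    rw [hαβ, ← Complex.cpow_natCast, ← Complex.cpow_add _ _ hp0]
    congr 1
    push_cast [Nat.cast_sub hl']
    ring
  have e6 : m + 1 + l = (m - l) + (2 * l + 1) := by omega
  rw [hX, e6, pow_add α, pow_add β, mul_pow]
  ring

/-- the Euler product -/
theorem LL0_prod (g m : ℕ) (α β : ℕ → ℂ)
    (hαβ : ∀ p : ℕ, p.Prime → p ≠ 2 → α p + β p = (aE p : ℂ) ∧ α p * β p = p) (s : ℂ)
    (hs : 1 + ((2 * m + 1 : ℕ) : ℝ) / 2 < s.re) :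
    HasProd (fun p : {p : ℕ // p.Prime ∧ p ≠ 2} => (locE g (2 * m + 1) (α p) (β p) p s)⁻¹)
      (LL0 g m (s - ((2 * m + 1 : ℕ) : ℂ) / 2)) := by
  have hfun : (fun p : {p : ℕ // p.Prime ∧ p ≠ 2} => (locE g (2 * m + 1) (α p) (β p) p s)⁻¹) =
      fun p : {p : ℕ // p.Prime ∧ p ≠ 2} => ∏ l ∈ Finset.range (m + 1),
      (((1 - α p ^ (2 * l + 1) * ((p : ℕ) : ℂ) ^ (-(s - ((2 * m + 1 : ℕ) : ℂ) / 2 +
          ((2 * l + 1 : ℕ) : ℂ) / 2))) *
        (1 - β p ^ (2 * l + 1) * ((p : ℕ) : ℂ) ^ (-(s - ((2 * m + 1 : ℕ) : ℂ) / 2 +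
          ((2 * l + 1 : ℕ) : ℂ) / 2))))⁻¹) ^ mu g m l := by
    funext p
    exact locE_eq g m (α p) (β p) p p.2.1.ne_zero (hαβ p p.2.1 p.2.2).2 s
  rw [hfun]
  unfold LL0
  refine hasProd_prod fun l _ => ?_
  have hre : (1 : ℝ) < (s - ((2 * m + 1 : ℕ) : ℂ) / 2).re := by
    have : (((2 * m + 1 : ℕ) : ℂ) / 2).re = ((2 * m + 1 : ℕ) : ℝ) / 2 := by
      rw [show (((2 * m + 1 : ℕ) : ℂ) / 2) = (((((2 * m + 1 : ℕ) : ℝ)) / 2 : ℝ) : ℂ) by push_cast; rfl]
      exact Complex.ofReal_re _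
    rw [Complex.sub_re, this]
    linarith
  have h := euler_k (odd_l l) α β hαβ (s - ((2 * m + 1 : ℕ) : ℂ) / 2) hre
  generalize mu g m l = c
  induction c with
  | zero => simp
  | succ c ih =>
    have := ih.mul h
    simp only [pow_succ]
    exact this

end Pool.Agent.W355.HW
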