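import Pool.Agent.W355.HW.Pow

set_option autoImplicit false

/-!
# The criterion for `H^i(E^g)`, `i` odd
-/

open Complex Filter Topology Set

namespace Pool.Agent.W355.HW

open scoped ComplexConjugate
open Pool.Agent.H471R3.GJ.Crit (LogCriterion)

/-- the Gamma factor -/
noncomputable def GamF (g i : ℕ) (s : ℂ) : ℂ :=
  ∏ p ∈ Finset.range ((i + 1) / 2), Gammaℂ (s - p) ^ (g.choose p * g.choose (i - p))

/-- the conductor -/
noncomputable def Cond (g i : ℕ) : ℝ :=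
  32 ^ (∑ p ∈ Finset.range ((i + 1) / 2), g.choose p * g.choose (i - p))

theorem BB_eq (g m : ℕ) : (32 : ℝ) ^ BB g m = Cond g (2 * m + 1) := by
  unfold Cond BB
  have e0 : (2 * m + 1 + 1) / 2 = m + 1 := by omega
  rw [e0, ← Finset.sum_range_reflect _ (m + 1)]
  congr 1
  refine Finset.sum_congr rfl fun l hl => ?_
  have hl' : l ≤ m := by have := Finset.mem_range.mp hl; omega
  have e1 : m + 1 - 1 - l = m - l := by omega
  unfold mu
  rw [e1]
  have e2 : m - (m - l) = l := by omega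
  have e3 : m + 1 + (m - l) = 2 * m + 1 - l := by omega
  rw [e2, e3]

theorem GamF_eq (g m : ℕ) (s : ℂ) :
    ∏ l ∈ Finset.range (m + 1), Gammaℂ (s - ((2 * m + 1 : ℕ) : ℂ) / 2 + l + 1 / 2) ^ mu g m l =
      GamF g (2 * m + 1) s := by
  unfold GamF
  have e0 : (2 * m + 1 + 1) / 2 = m + 1 := by omega
  rw [e0, ← Finset.prod_range_reflect _ (m + 1)]
  refine Finset.prod_congr rfl fun l hl => ?_
  have hl' : l ≤ m := by have := Finset.mem_range.mp hl; omega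
  have e1 : m + 1 - 1 - l = m - l := by omega
  rw [e1]
  unfold mu
  have e2 : m - (m - l) = l := by omega
  have e3 : m + 1 + (m - l) = 2 * m + 1 - l := by omega
  rw [e2, e3]
  congr 2
  push_cast [Nat.cast_sub hl']
  ring

theorem main (g m : ℕ) (hm : m < g) : ∃ (Λ : ℂ → ℂ) (r : ℕ), r ≤ 1 ∧ Differentiable ℂ Λ ∧
    (∀ s : ℂ, (((2 * m + 1 : ℕ) : ℝ) - 1) / 2 < s.re →
      Λ s = (Cond g (2 * m + 1) : ℂ) ^ ((s - ((2 * m + 1 : ℕ) : ℂ) / 2) / 2) *
        GamF g (2 * m + 1) s * LL0 g m (s - ((2 * m + 1 : ℕ) : ℂ) / 2)) ∧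
    (∀ s : ℂ, Λ (conj s) = conj (Λ s)) ∧
    (∀ s : ℂ, Λ (((2 * m + 1 : ℕ) : ℂ) + 1 - s) = (-1) ^ r * Λ s) ∧
    LogCriterion r (fun z => Λ ((((2 * m + 1 : ℕ) : ℂ) + 1) / 2 + z))
      (∀ s : ℂ, Λ s = 0 → s.re = (((2 * m + 1 : ℕ) : ℝ) + 1) / 2) ∧
    Pool.Agent.H986R2.GD.Crit (fun z => Λ ((((2 * m + 1 : ℕ) : ℂ) + 1) / 2 + z))
      (∀ s : ℂ, Λ s = 0 → s.re = (((2 * m + 1 : ℕ) : ℝ) + 1) / 2) := by
  obtain ⟨Λ1, r, hr, hd, h1, h2, h3, h4, h5⟩ := main_half g m hm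
  generalize hi : ((2 * m + 1 : ℕ) : ℂ) = c at *
  generalize hi' : ((2 * m + 1 : ℕ) : ℝ) = x at *
  have hcx : c = (x : ℂ) := by
    rw [← hi, ← hi']
    push_cast
    rfl
  have hc2 : c / 2 = ((x / 2 : ℝ) : ℂ) := by rw [hcx]; push_cast; rfl
  have hre : ∀ s : ℂ, (s - c / 2).re = s.re - x / 2 := by
    intro s
    rw [hc2, Complex.sub_re, Complex.ofReal_re]
  have hF : (fun z => Λ1 ((c + 1) / 2 + z - c / 2)) = fun z => Λ1 (1 / 2 + z) := by
    funext z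
    congr 1
    ring
  have hrh : (∀ s : ℂ, Λ1 s = 0 → s.re = 1 / 2) ↔
      (∀ s : ℂ, Λ1 (s - c / 2) = 0 → s.re = (x + 1) / 2) := by
    constructor
    · intro h s hs
      have := h _ hs
      rw [hre] at this
      linarith
    · intro h s hs
      have := h (s + c / 2) (by rw [add_sub_cancel_right]; exact hs)
      rw [hc2, Complex.add_re, Complex.ofReal_re] at this
      linarith
  refine ⟨fun s => Λ1 (s - c / 2), r, hr, hd.comp (by fun_prop), ?_, ?_, ?_, ?_, ?_⟩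
  · intro s hs
    have h6 := h1 (s - c / 2) (by rw [hre]; linarith)
    show Λ1 (s - c / 2) = _
    rw [h6]
    unfold GP
    rw [BB_eq, ← GamF_eq, hi]
  · intro s
    show Λ1 (conj s - c / 2) = conj (Λ1 (s - c / 2))
    rw [← h2, map_sub, hc2, Complex.conj_ofReal]
  · intro s
    have h6 := h3 (s - c / 2 - 1 / 2)
    show Λ1 (c + 1 - s - c / 2) = (-1) ^ r * Λ1 (s - c / 2)
    have e1 : (1 / 2 + -(s - c / 2 - 1 / 2) : ℂ) = c + 1 - s - c / 2 := by ring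
    have e2 : (1 / 2 + (s - c / 2 - 1 / 2) : ℂ) = s - c / 2 := by ring
    rw [e1, e2] at h6
    exact h6
  · show LogCriterion r (fun z => Λ1 ((c + 1) / 2 + z - c / 2)) _
    rw [hF]
    obtain ⟨C, hC, h6, h7⟩ := h4
    exact ⟨C, hC, h6, hrh.symm.trans h7⟩
  · show Pool.Agent.H986R2.GD.Crit (fun z => Λ1 ((c + 1) / 2 + z - c / 2)) _
    rw [hF]
    exact Pool.Agent.H986R2.GD.crit_congr (fun _ => rfl) hrh h5

end Pool.Agent.W355.HW
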