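import Pool.Agent.W355.HW.Base

set_option autoImplicit false

/-!
# The completed L-function of the odd cohomology of the powers of `y² = x³ - x`
-/

open Complex Filter Topology Set

namespace Pool.Agent.W355.HW

open Pool.Agent.H304R3.HK (tc bb CS one_le_norm_tc)
open Pool.Agent.W354.PK (HCk LK bK psik goodK)
open Pool.Agent.W354.HW (chiE qE chiE_pow_HC chiE_apply gE euler_k)
open Pool.Agent.H304R2.EC (aE)
open Pool.Agent.W355.LJ
open scoped ComplexConjugate

/-- two analytic functions on a half-plane which agree far to the right -/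
theorem half_eqL {f g : ℂ → ℂ} {a σ : ℝ} (hf : ∀ s : ℂ, a < s.re → AnalyticAt ℂ f s)
    (hg : ∀ s : ℂ, a < s.re → AnalyticAt ℂ g s) (h : ∀ s : ℂ, σ ≤ s.re → f s = g s) (s : ℂ)
    (hs : a < s.re) : f s = g s := by
  have hU : IsPreconnected {s : ℂ | a < s.re} := (convex_halfSpace_re_gt a).isPreconnected
  have hf' : AnalyticOnNhd ℂ f {s : ℂ | a < s.re} := fun s hs => hf s hs
  have hg' : AnalyticOnNhd ℂ g {s : ℂ | a < s.re} := fun s hs => hg s hs
  set z0 : ℂ := ((max a σ + 1 : ℝ) : ℂ) with hz0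
  have h0 : a < z0.re := by
    rw [hz0, Complex.ofReal_re]
    have := le_max_left a σ
    linarith
  have h1 : σ < z0.re := by
    rw [hz0, Complex.ofReal_re]
    have := le_max_right a σ
    linarith
  have hev : f =ᶠ[𝓝 z0] g := by
    have h2 : {s : ℂ | σ < s.re} ∈ 𝓝 z0 := (isOpen_lt continuous_const Complex.continuous_re).mem_nhds h1
    filter_upwards [h2] with s hs
    exact h s (le_of_lt hs)
  exact hf'.eqOn_of_preconnected_of_eventuallyEq hg' hU h0 hev hs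

/-! ## reality -/

theorem gE_star : ∀ a b : ZMod 4, gE a (-b) = star (gE a b) := by
  decide +kernel

theorem tc_star' (a : GaussianInt) : tc (star a) = conj (tc a) := by
  unfold tc
  rw [Zsqrtd.re_star, Zsqrtd.im_star, map_add, map_mul, Complex.conj_I]
  push_cast
  rw [map_intCast, map_intCast]
  ring

theorem chiE_star (z : GaussianInt) : chiE (star z) = conj (chiE z) := by
  rw [chiE_apply, chiE_apply, ← tc_star', Zsqrtd.re_star, Zsqrtd.im_star, ← gE_star]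
  push_cast
  rfl

theorem psik_star {k : ℕ} {χ : GaussianInt →* ℂ} (hχ : ∀ z, χ (star z) = conj (χ z))
    (z : GaussianInt) : psik k χ (star z) = conj (psik k χ z) := by
  show (if star z = 0 then (0 : ℂ) else χ (star z) * (tc (star z) / (‖tc (star z)‖ : ℂ)) ^ k) =
    conj (if z = 0 then (0 : ℂ) else χ z * (tc z / (‖tc z‖ : ℂ)) ^ k)
  by_cases hz : z = 0
  · simp [hz]
  · have hz' : star z ≠ 0 := fun h => hz (by rw [← star_star z, h, star_zero])
    rw [if_neg hz, if_neg hz', hχ, tc_star', map_mul, map_pow, map_div₀, RCLike.norm_conj,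
      Complex.conj_ofReal]

theorem bb_real {h : GaussianInt → ℂ} (hh : ∀ z, h (star z) = conj (h z)) (n : ℕ) :
    conj (bb h n) = bb h n := by
  unfold bb
  rw [map_mul, map_sum]
  congr 1
  · rw [map_div₀, map_one, map_ofNat]
  · refine Finset.sum_bij' (fun p _ => (p.1, -p.2)) (fun p _ => (p.1, -p.2)) ?_ ?_ ?_ ?_ ?_
    · intro p hp
      rw [Pool.Agent.H304R3.HK.M1.mem_CS]
      have := (Pool.Agent.H304R3.HK.M1.mem_CS (a := p.1) (b := p.2)).1 hp
      rw [← this]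
      ring
    · intro p hp
      rw [Pool.Agent.H304R3.HK.M1.mem_CS]
      have := (Pool.Agent.H304R3.HK.M1.mem_CS (a := p.1) (b := p.2)).1 hp
      rw [← this]
      ring
    · intro p _
      simp
    · intro p _
      simp
    · intro p _
      exact (hh ⟨p.1, p.2⟩).symm

theorem chiE_pow_star (k : ℕ) (z : GaussianInt) : (chiE ^ k) (star z) = conj ((chiE ^ k) z) := by
  rw [Pool.Agent.W354.HW.pow_apply', Pool.Agent.W354.HW.pow_apply', chiE_star, map_pow]

theorem bK_real (k : ℕ) (n : ℕ) : conj (bK k (chiE ^ k) n) = bK k (chiE ^ k) n :=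
  bb_real (psik_star (chiE_pow_star k)) n

/-! ## one factor -/

/-- `Good` and real on the real axis -/
def GoodR (Λ G : ℂ → ℂ) : Prop := (∃ w, Good w Λ G) ∧ st Λ = Λ

theorem goodR_mul {Λ1 Λ2 G1 G2 : ℂ → ℂ} (h1 : GoodR Λ1 G1) (h2 : GoodR Λ2 G2) :
    GoodR (fun s => Λ1 s * Λ2 s) (fun s => G1 s * G2 s) := by
  obtain ⟨⟨w1, g1⟩, s1⟩ := h1
  obtain ⟨⟨w2, g2⟩, s2⟩ := h2
  refine ⟨⟨w1 * w2, good_mul g1 g2⟩, ?_⟩
  funext s
  have e1 := congrFun s1 s
  have e2 := congrFun s2 s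
  unfold st at e1 e2 ⊢
  simp only
  rw [map_mul, e1, e2]

theorem goodR_pow {G : ℂ → ℂ} (h : ∃ Λ, GoodR Λ G) (n : ℕ) (hn : n ≠ 0) :
    ∃ Λ, GoodR Λ (fun s => G s ^ n) := by
  induction n with
  | zero => exact absurd rfl hn
  | succ n ih =>
    rcases Nat.eq_zero_or_pos n with rfl | hpos
    · simpa using h
    · obtain ⟨Λ1, h1⟩ := ih hpos.ne'
      obtain ⟨Λ2, h2⟩ := h
      refine ⟨fun s => Λ1 s * Λ2 s, ?_⟩
      have h3 := goodR_mul h1 h2
      simp only [← pow_succ] at h3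
      exact h3

theorem goodR_prod (G : ℕ → ℂ → ℂ) (h : ∀ l, ∃ Λ, GoodR Λ (G l)) (c : ℕ → ℕ) (h0 : c 0 ≠ 0) (n : ℕ) :
    ∃ Λ, GoodR Λ (fun s => ∏ l ∈ Finset.range (n + 1), G l s ^ c l) := by
  induction n with
  | zero =>
    simpa using goodR_pow (h 0) (c 0) h0
  | succ n ih =>
    obtain ⟨Λ1, h1⟩ := ih
    by_cases hc : c (n + 1) = 0
    · refine ⟨Λ1, ?_⟩
      have e : (fun s => ∏ l ∈ Finset.range (n + 1 + 1), G l s ^ c l) =
          fun s => ∏ l ∈ Finset.range (n + 1), G l s ^ c l := by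
        funext s
        rw [Finset.prod_range_succ, hc, pow_zero, mul_one]
      rw [e]
      exact h1
    · obtain ⟨Λ2, h2⟩ := goodR_pow (h (n + 1)) (c (n + 1)) hc
      refine ⟨fun s => Λ1 s * Λ2 s, ?_⟩
      have h3 := goodR_mul h1 h2
      simp only [← Finset.prod_range_succ] at h3
      exact h3

/-- the completed L-function of `ψ^(2l+1)` -/
noncomputable def G1 (l : ℕ) (s : ℂ) : ℂ :=
  (32 : ℂ) ^ (s / 2) * Gammaℂ (s + l + 1 / 2) * FE (2 * l + 1) s

theorem lseries_FE (l : ℕ) {s : ℂ} (hs : 1 < s.re) :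
    LSeries (bK (2 * l + 1) (chiE ^ (2 * l + 1))) s = FE (2 * l + 1) s := by
  obtain ⟨A, hA, hgood⟩ := goodK
  have h5 := (hgood (2 * l + 1) qE _ (by omega) (chiE_pow_HC (odd_l l))).2.1 s hs
  have h6 : FE (2 * l + 1) s = LK (2 * l + 1) (chiE ^ (2 * l + 1)) s := rfl
  rw [h6, ← h5.tsum_eq]
  unfold LSeries
  refine tsum_congr fun n => ?_
  rcases Nat.eq_zero_or_pos n with rfl | hn
  · rw [LSeries.term_zero]
    have : bK (2 * l + 1) (chiE ^ (2 * l + 1)) 0 = 0 :=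
      (Pool.Agent.W354.HW.in_h (odd_l l)).z0
    rw [this, zero_mul]
  · rw [LSeries.term_of_ne_zero hn.ne', Complex.cpow_neg, div_eq_mul_inv]

theorem goodR_one (l : ℕ) : ∃ Λ, GoodR Λ (G1 l) := by
  have hH := chiE_pow_HC (odd_l l)
  obtain ⟨w, Λ, hw, h⟩ := hecke_isC (k := 2 * l + 1) (by omega) qE _ hH
  refine ⟨Λ, ⟨w, good_of (by simp) hw h ⟨2, fun s hs => ?_⟩⟩, h.real_star (bK_real _)⟩
  have hn : (4 * Zsqrtd.norm qE : ℤ) = 32 := by decide
  have hN0 : (0 : ℝ) < ((4 * Zsqrtd.norm qE : ℤ) : ℝ) := by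
    rw [hn]
    norm_num
  rw [GF_pair, log_tc hH.q0, exp_half_log hN0, Complex.ofReal_intCast, hn,
    lseries_FE l (by linarith)]
  unfold G1
  congr 2
  push_cast
  ring

theorem gc_conj (s : ℂ) : Gammaℂ (conj s) = conj (Gammaℂ s) := by
  rw [← Complex.Gammaℝ_mul_Gammaℝ_add_one, ← Complex.Gammaℝ_mul_Gammaℝ_add_one, map_mul, ← gr_conj,
    ← gr_conj, map_add, map_one]

/-! ## the product -/

/-- the total number of factors -/
def BB (g m : ℕ) : ℕ := ∑ l ∈ Finset.range (m + 1), mu g m l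

theorem mu_zero {g m : ℕ} (hm : m < g) : mu g m 0 ≠ 0 := by
  unfold mu
  have h3 : 0 < g.choose (m - 0) * g.choose (m + 1 + 0) :=
    Nat.mul_pos (Nat.choose_pos (by omega)) (Nat.choose_pos (by omega))
  exact h3.ne'

/-- the completed L-function -/
noncomputable def GP (g m : ℕ) (s : ℂ) : ℂ :=
  ((32 ^ BB g m : ℝ) : ℂ) ^ (s / 2) * (∏ l ∈ Finset.range (m + 1),
    Gammaℂ (s + l + 1 / 2) ^ mu g m l) * LL0 g m s

theorem GP_eq (g m : ℕ) (s : ℂ) : GP g m s = ∏ l ∈ Finset.range (m + 1), G1 l s ^ mu g m l := by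
  unfold GP LL0 BB G1
  have e1 : ∀ l : ℕ, ((32 : ℂ) ^ (s / 2) * Gammaℂ (s + l + 1 / 2) * FE (2 * l + 1) s) ^ mu g m l =
      ((32 : ℂ) ^ (s / 2)) ^ mu g m l * Gammaℂ (s + l + 1 / 2) ^ mu g m l *
        FE (2 * l + 1) s ^ mu g m l := by
    intro l
    rw [mul_pow, mul_pow]
  simp only [e1, Finset.prod_mul_distrib]
  congr 2
  rw [Finset.prod_pow_eq_pow_sum]
  have e2 : ((32 : ℝ) : ℂ) = (32 : ℂ) := by norm_num
  rw [← e2]
  generalize ∑ l ∈ Finset.range (m + 1), mu g m l = c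
  induction c with
  | zero => simp
  | succ c ih =>
    rw [pow_succ, pow_succ, ← ih, Complex.ofReal_mul,
      Complex.mul_cpow_ofReal_nonneg (by positivity) (by norm_num)]

theorem gamma_an (l : ℕ) {s : ℂ} (hs : -(1 / 2 : ℝ) < s.re) :
    AnalyticAt ℂ (fun s => Gammaℂ (s + l + 1 / 2)) s := by
  have hre : ∀ z : ℂ, -(1 / 2 : ℝ) < z.re → 0 < (z + l + 1 / 2).re := by
    intro z hz
    have : (z + l + 1 / 2).re = z.re + l + 1 / 2 := by simp
    rw [this]
    have : (0 : ℝ) ≤ l := Nat.cast_nonneg l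
    linarith
  have h1 : DifferentiableOn ℂ (fun s => Gammaℂ (s + l + 1 / 2)) {z : ℂ | -(1 / 2 : ℝ) < z.re} := by
    intro z hz
    have h2 : DifferentiableAt ℂ Complex.Gamma (z + l + 1 / 2) := by
      refine Complex.differentiableAt_Gamma _ fun m hm => ?_
      have h3 := hre z hz
      rw [hm] at h3
      have h4 : (-(m : ℂ)).re = -(m : ℝ) := by simp
      rw [h4] at h3
      have : (0 : ℝ) ≤ m := Nat.cast_nonneg m
      linarith
    have h5 : DifferentiableAt ℂ (fun z : ℂ => Complex.Gamma (z + l + 1 / 2)) z :=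
      h2.comp z (by fun_prop : DifferentiableAt ℂ (fun z : ℂ => z + l + 1 / 2) z)
    have h6 : DifferentiableAt ℂ (fun z : ℂ => (2 * (Real.pi : ℂ)) ^ (-(z + l + 1 / 2))) z := by
      refine DifferentiableAt.const_cpow (by fun_prop) (Or.inl ?_)
      exact mul_ne_zero two_ne_zero (by exact_mod_cast Real.pi_ne_zero)
    have h7 : (fun s => Gammaℂ (s + l + 1 / 2)) = fun z : ℂ =>
        2 * (2 * (Real.pi : ℂ)) ^ (-(z + l + 1 / 2)) * Complex.Gamma (z + l + 1 / 2) := by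
      funext z
      rw [Complex.Gammaℂ_def]
    rw [h7]
    exact ((h6.const_mul 2).mul h5).differentiableWithinAt
  exact h1.analyticAt ((isOpen_lt continuous_const Complex.continuous_re).mem_nhds hs)

theorem GP_an (g m : ℕ) {s : ℂ} (hs : -(1 / 2 : ℝ) < s.re) : AnalyticAt ℂ (GP g m) s := by
  have h0 : GP g m = fun s => ((32 ^ BB g m : ℝ) : ℂ) ^ (s / 2) * (∏ l ∈ Finset.range (m + 1),
    Gammaℂ (s + l + 1 / 2) ^ mu g m l) * LL0 g m s := rfl
  rw [h0]
  refine ((?_ : AnalyticAt ℂ _ s).mul ?_).mul ((LL0_diff g m).analyticAt s)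
  · have h1 : ((32 ^ BB g m : ℝ) : ℂ) ≠ 0 := by
      have : (32 ^ BB g m : ℝ) ≠ 0 := by positivity
      exact_mod_cast this
    have h3 : Differentiable ℂ fun s : ℂ => ((32 ^ BB g m : ℝ) : ℂ) ^ (s / 2) := by
      intro z
      exact DifferentiableAt.const_cpow (by fun_prop) (Or.inl h1)
    exact h3.analyticAt s
  · exact Finset.analyticAt_fun_prod _ fun l _ => (gamma_an l hs).pow _

open Pool.Agent.H471R3.GJ.Crit (LogCriterion) in
/-- the completed L-function, centred at `1/2` -/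
theorem main_half (g m : ℕ) (hm : m < g) : ∃ (Λ : ℂ → ℂ) (r : ℕ), r ≤ 1 ∧ Differentiable ℂ Λ ∧
    (∀ s : ℂ, -(1 / 2 : ℝ) < s.re → Λ s = GP g m s) ∧
    (∀ s : ℂ, Λ (conj s) = conj (Λ s)) ∧
    (∀ z : ℂ, Λ (1 / 2 + -z) = (-1) ^ r * Λ (1 / 2 + z)) ∧
    LogCriterion r (fun z => Λ (1 / 2 + z)) (∀ s : ℂ, Λ s = 0 → s.re = 1 / 2) ∧
    Pool.Agent.H986R2.GD.Crit (fun z => Λ (1 / 2 + z)) (∀ s : ℂ, Λ s = 0 → s.re = 1 / 2) := by
  obtain ⟨Λ, ⟨w, hg⟩, hst⟩ := goodR_prod G1 goodR_one (mu g m) (mu_zero hm) m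
  obtain ⟨l, M, b, hl, hw, hc, σ, hσ⟩ := hg
  obtain ⟨r, hr, h1, h2⟩ := hc.critS hl hst
  refine ⟨Λ, r, hr, hc.entire, ?_, ?_, h1, h2, hc.critSH hl hst⟩
  · exact half_eqL (fun s _ => hc.entire.analyticAt s) (fun s hs => GP_an g m hs)
      (fun s hs => by rw [hσ s hs, GP_eq])
  · intro s
    have := congrFun hst (conj s)
    unfold st at this
    rw [Complex.conj_conj] at this
    exact this.symm

end Pool.Agent.W355.HW
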